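import Pool.Agent.U481.GL.Stm

/-!
Project GL (helper481), package MES: joint measurability of `G2 f`.
-/

set_option autoImplicit false

open MeasureTheory Filter Topology Set
open scoped ENNReal NNReal Real

namespace Pool.Agent.U88.GL.MES

open Pool.Agent.U481.GL

lemma kz_meas : Measurable (fun z : (ℝ × ℝ) × ℝ => kz (z.1.1 - z.2) z.1.2) := by
  unfold kz
  fun_prop

lemma ky_meas : Measurable (fun z : (ℝ × ℝ) × ℝ => ky (z.1.1 - z.2) z.1.2) := by
  unfold ky
  fun_prop

lemma meas_aux (k : ℝ → ℝ → ℝ)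
    (hk : Measurable (fun z : (ℝ × ℝ) × ℝ => k (z.1.1 - z.2) z.1.2)) (f : ℝ → ℂ)
    (hf : AEStronglyMeasurable f volume) :
    Measurable (fun q : ℝ × ℝ => ∫ t, (k (q.1 - t) q.2 : ℂ) * f t) := by
  have h1 : (fun q : ℝ × ℝ => ∫ t, (k (q.1 - t) q.2 : ℂ) * f t) =
      fun q : ℝ × ℝ => ∫ t, (k (q.1 - t) q.2 : ℂ) * (hf.mk f) t := by
    funext q
    apply integral_congr_ae
    filter_upwards [hf.ae_eq_mk] with t ht
    rw [ht]
  rw [h1]
  have hm : StronglyMeasurable (fun z : (ℝ × ℝ) × ℝ => (k (z.1.1 - z.2) z.1.2 : ℂ) * (hf.mk f) z.2) := by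
    apply Measurable.stronglyMeasurable
    exact (Complex.measurable_ofReal.comp hk).mul
      (hf.stronglyMeasurable_mk.measurable.comp measurable_snd)
  exact (hm.integral_prod_right (ν := (volume : Measure ℝ))).measurable

theorem main : S_mes := by
  intro f hf
  have hf' : AEStronglyMeasurable f volume := by
    have h1 : AEStronglyMeasurable
        (fun x : ℝ => (f x / ((1 + x ^ 2 : ℝ) : ℂ)) * ((1 + x ^ 2 : ℝ) : ℂ)) volume := by
      apply hf.aestronglyMeasurable.mul
      apply Continuous.aestronglyMeasurable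
      fun_prop
    apply h1.congr
    filter_upwards with x
    have : ((1 + x ^ 2 : ℝ) : ℂ) ≠ 0 := by
      have h2 : (1 + x ^ 2 : ℝ) ≠ 0 := by positivity
      exact_mod_cast h2
    exact div_mul_cancel₀ _ this
  unfold G2
  have h1 : Measurable (Gz f) := meas_aux kz kz_meas f hf'
  have h2 : Measurable (Gy f) := meas_aux ky ky_meas f hf'
  exact (h1.enorm.pow_const 2).add (h2.enorm.pow_const 2)

end Pool.Agent.U88.GL.MES
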